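import Mathlib
import Pool.Agent.Run7.h866.NU.Neg

set_option autoImplicit false

/-!
# `d ^ 2 ≥ ∑ μ ^ 2` for curves with a dominating near-uniform part

Let `P 1, …, P s` be very general points of the complex projective plane, let `μ i` be the
multiplicities at the points of an irreducible plane curve of degree `d`, let `T` be a set of points
and let `v i ≤ μ i` for `i ∈ T`. Suppose that
* `T` has at least `200` points and `v` takes on `T` only two values `m`, `m + 1` with `m ≥ 1`, or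
* `T` has `t ≥ 37` points and `v` is close to a constant `m ≥ (t + 6) / 2` on `T`.

Then `d ^ 2 - ∑ μ ^ 2 ≥ (∑_T v) / 2 - (∑ μ ^ 2 - ∑_T v ^ 2)`. In particular `∑ μ ^ 2 ≤ d ^ 2` if
`2 (∑ μ ^ 2 - ∑_T v ^ 2) ≤ ∑_T v`.
-/

namespace Pool.Agent.Results.MP_3c72fe_ag.NearUniformPart

open MvPolynomial

/-- The homogeneous ideal of the point `(p 0 : p 1 : 1)`. -/
noncomputable def ptIdeal (p : Fin 2 → ℂ) : Ideal (MvPolynomial (Fin 3) ℂ) :=
  Ideal.span ({X 0 - C (p 0) * X 2, X 1 - C (p 1) * X 2} : Set (MvPolynomial (Fin 3) ℂ))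

/-- The curve `F = 0` has multiplicity `m` at the point `(p 0 : p 1 : 1)`. -/
def HasMult (F : MvPolynomial (Fin 3) ℂ) (p : Fin 2 → ℂ) (m : ℕ) : Prop :=
  F ∈ ptIdeal p ^ m ∧ F ∉ ptIdeal p ^ (m + 1)

/-- The self-intersection of the class `d H - ∑ μ i E i`. -/
noncomputable def selfInt {s : ℕ} (d : ℕ) (μ : Fin s → ℕ) : ℝ :=
  (d : ℝ) ^ 2 - ∑ i, (μ i : ℝ) ^ 2

/-- At least `200` points with values `m` or `m + 1`, `m ≥ 1`. -/
def TwoValues {s : ℕ} (T : Finset (Fin s)) (v : Fin s → ℕ) : Prop :=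
  200 ≤ T.card ∧ ∃ m : ℕ, 1 ≤ m ∧ ∀ i ∈ T, v i = m ∨ v i = m + 1

/-- The cost of a value `e ≤ m + 1`. -/
def cost (m e : ℕ) : ℕ := if e < m then 4 * (m - e) - 2 else if e = m then 0 else 1

/-- `0, 5, 2, 3` for `t ≡ 0, 1, 2, 3` modulo four. -/
def spare (t : ℕ) : ℕ := if t % 4 = 1 then 5 else t % 4

/-- At least `37` points with values close to a constant `m ≥ (t + 6) / 2`. -/
def CloseToConstant {s : ℕ} (T : Finset (Fin s)) (v : Fin s → ℕ) : Prop :=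
  37 ≤ T.card ∧ ∃ m : ℕ, T.card + 6 ≤ 2 * m ∧ (∀ i ∈ T, v i ≤ m + 1) ∧
    (((∑ i ∈ T, cost m (v i) : ℕ) : ℝ) + (spare T.card : ℝ) / 2 + 9 / 8 <
        7 * Real.sqrt T.card / 6 ∨
      ((∑ i ∈ T, cost m (v i) : ℕ) : ℝ) + spare T.card + 2 * Real.sqrt T.card / 3 + 23 / 8 ≤
        (T.card : ℝ) / 4)

theorem result (s : ℕ) :
    ∃ G : ℕ → MvPolynomial (Fin s × Fin 2) ℂ, (∀ j, G j ≠ 0) ∧
      ∀ P : Fin s → Fin 2 → ℂ,
        (∀ j, MvPolynomial.eval (fun ij : Fin s × Fin 2 => P ij.1 ij.2) (G j) ≠ 0) →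
        ∀ (d : ℕ) (μ : Fin s → ℕ) (F : MvPolynomial (Fin 3) ℂ), Irreducible F →
          F.IsHomogeneous d → (∀ i, HasMult F (P i) (μ i)) →
          ∀ (T : Finset (Fin s)) (v : Fin s → ℕ), (∀ i ∈ T, v i ≤ μ i) →
            (TwoValues T v ∨ CloseToConstant T v) →
            (∑ i ∈ T, (v i : ℝ)) / 2 - (∑ i, (μ i : ℝ) ^ 2 - ∑ i ∈ T, (v i : ℝ) ^ 2) ≤
                selfInt d μ ∧
              (2 * (∑ i, (μ i : ℝ) ^ 2 - ∑ i ∈ T, (v i : ℝ) ^ 2) ≤ ∑ i ∈ T, (v i : ℝ) →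
                ∑ i, μ i ^ 2 ≤ d ^ 2) := by
  classical
  obtain ⟨G, hG, hG'⟩ := Pool.Agent.Run7.h866.NU.exists_familyC (Fin s × Fin 2)
  refine ⟨G, hG, fun P hP d μ F hirr hFd hmu T v hv hT => ?_⟩
  have hind := hG' _ hP
  let e : T ≃ Fin T.card := T.equivFin
  let f : Fin T.card × Fin 2 → Fin s × Fin 2 := fun q => ((e.symm q.1 : T), q.2)
  have hf : Function.Injective f := by
    rintro ⟨a, b⟩ ⟨a', b'⟩ h
    have h1 : ((e.symm a : T) : Fin s) = (e.symm a' : T) := congrArg Prod.fst h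
    have h2 : b = b' := congrArg Prod.snd h
    have h3 := e.symm.injective (Subtype.ext h1)
    rw [h2, h3]
  have hind' := hind.comp f hf
  have e1 : ∀ g : ℕ → ℝ, ∑ a : Fin T.card, g (v (e.symm a : T)) = ∑ i ∈ T, g (v i) := by
    intro g
    rw [← Finset.sum_coe_sort T (fun i => g (v i))]
    exact Equiv.sum_comp e.symm (fun i : T => g (v i))
  have ec : ∀ m e, cost m e = Pool.Agent.Run7.h866.NU.cst m e := fun _ _ => rfl
  have es : ∀ t, spare t = Pool.Agent.Run7.h866.NU.cc t := fun _ => rfl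
  have hnear : Pool.Agent.Run7.h866.NU.NearV (fun a : Fin T.card => v (e.symm a : T)) := by
    rcases hT with ⟨h1, m, hm, h2⟩ | ⟨h1, m, hm, h2, h3⟩
    · exact Or.inl ⟨h1, m, hm, fun a => h2 _ (e.symm a).2⟩
    · refine Or.inr ⟨m, h1, hm, fun a => h2 _ (e.symm a).2, ?_⟩
      have e2 : ((∑ a : Fin T.card, Pool.Agent.Run7.h866.NU.cst m (v (e.symm a : T)) : ℕ) : ℝ) =
          ((∑ i ∈ T, cost m (v i) : ℕ) : ℝ) := by
        rw [Nat.cast_sum, Nat.cast_sum]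
        exact e1 (fun z => (cost m z : ℝ))
      rw [e2, ← es]
      exact h3
  have h1 := Pool.Agent.Run7.h866.NU.strong_near (w := fun a : Fin T.card => v (e.symm a : T))
    (P := fun a => P (e.symm a : T)) hnear hind' hFd hirr.ne_zero
    (fun a => Ideal.pow_le_pow_right (hv _ (e.symm a).2) (hmu _).1)
  have e2 := e1 (fun z => (z : ℝ) ^ 2)
  have e3 := e1 (fun z => (z : ℝ))
  rw [e2, e3] at h1
  have h2 : (∑ i ∈ T, (v i : ℝ)) / 2 - (∑ i, (μ i : ℝ) ^ 2 - ∑ i ∈ T, (v i : ℝ) ^ 2) ≤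
      selfInt d μ := by
    unfold selfInt
    linarith
  refine ⟨h2, fun h3 => ?_⟩
  unfold selfInt at h2
  have h4 : (∑ i, (μ i : ℝ) ^ 2) ≤ (d : ℝ) ^ 2 := by linarith
  exact_mod_cast h4

end Pool.Agent.Results.MP_3c72fe_ag.NearUniformPart
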